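import Pool.Agent.Helper58.FL.Tools

/-! FL-5a: mapping cylinders and deformation retractions of simplicial presheaves. -/

open CategoryTheory MonoidalCategory Opposite

set_option autoImplicit false

namespace Pool.Agent.Helper36.FL

open _root_.FL

universe u

/-- The vertices of `[1]` as constant maps. -/
abbrev cst (k : SimplexCategory) (i : Fin 2) : k ⟶ SimplexCategory.mk 1 :=
  SimplexCategory.const k (SimplexCategory.mk 1) i

section

variable {A : Type} [SmallCategory A]

/-- Simplices of the mapping cylinder. -/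
inductive CylS {X Y : SP A} (f : X ⟶ Y) (a : Aᵒᵖ) (k : SimplexCategoryᵒᵖ) : Type
  | mk (t : k.unop ⟶ SimplexCategory.mk 1) (ht : t ≠ cst k.unop 0) (x : (X.obj a).obj k)
  | base (y : (Y.obj a).obj k)

namespace CylS

variable {X Y : SP A} {f : X ⟶ Y} {a : Aᵒᵖ} {k : SimplexCategoryᵒᵖ}

open Classical in
/-- The simplex of the mapping cylinder given by a simplex of `X × Δ[1]`. -/
noncomputable def cy (f : X ⟶ Y) {a : Aᵒᵖ} {k : SimplexCategoryᵒᵖ}
    (t : k.unop ⟶ SimplexCategory.mk 1) (x : (X.obj a).obj k) : CylS f a k :=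
  if h : t = cst k.unop 0 then base ((f.app a).app k x) else mk t h x

theorem cy_zero (x : (X.obj a).obj k) : cy f (cst k.unop 0) x = base ((f.app a).app k x) :=
  dif_pos rfl

theorem cy_of_ne {t : k.unop ⟶ SimplexCategory.mk 1} (h : t ≠ cst k.unop 0)
    (x : (X.obj a).obj k) : cy f t x = mk t h x :=
  dif_neg h

theorem eqv (c : CylS f a k) : (∃ t x, c = cy f t x) ∨ ∃ y, c = base y := by
  cases c with
  | mk t ht x => exact Or.inl ⟨t, x, (cy_of_ne ht x).symm⟩
  | base y => exact Or.inr ⟨y, rfl⟩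

/-- Descent of functions. -/
def desc {T : Type*} (F : (k.unop ⟶ SimplexCategory.mk 1) → (X.obj a).obj k → T)
    (G : (Y.obj a).obj k → T) : CylS f a k → T
  | mk t _ x => F t x
  | base y => G y

end CylS

end

open Simplicial

/-- Homotopies written elementwise. -/
theorem htpy_mk {X Y : SSet.{u}} {f g : X ⟶ Y}
    (H : ∀ k : SimplexCategoryᵒᵖ, X.obj k → (k.unop ⟶ ⦋1⦌) → Y.obj k)
    (nat : ∀ {k l : SimplexCategoryᵒᵖ} (α : k ⟶ l) (x : X.obj k) (s : k.unop ⟶ ⦋1⦌),
      H l (X.map α x) (α.unop ≫ s) = Y.map α (H k x s))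
    (h0 : ∀ (k : SimplexCategoryᵒᵖ) (x : X.obj k), H k x (cst k.unop 0) = f.app k x)
    (h1 : ∀ (k : SimplexCategoryᵒᵖ) (x : X.obj k), H k x (cst k.unop 1) = g.app k x) :
    Nonempty (SSet.Homotopy f g) :=
  ⟨{ h :=
      { app := fun k => ↾ fun (z : X.obj k × (Δ[1] : SSet.{u}).obj k) =>
          H k z.1 (SSet.stdSimplex.objEquiv z.2)
        naturality := fun k l α => by
          ext ⟨x, s⟩
          exact nat α x (SSet.stdSimplex.objEquiv s) }
     h₀ := by
        ext k x
        exact h0 k x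
     h₁ := by
        ext k x
        exact h1 k x
     rel := by
        ext k ⟨x, s⟩
        exact x.2.elim }⟩

theorem htpy_of_eq {X Y : SSet.{u}} {f g : X ⟶ Y} (h : f = g) :
    Nonempty (SSet.Homotopy f g) := by
  subst h
  exact htpy_mk (fun k x _ => f.app k x) (fun α x _ => sset_nat f α x) (fun _ _ => rfl)
    fun _ _ => rfl

section

variable {A : Type} [SmallCategory A]

/-- The equation of a homotopy at the vertex `0`. -/
theorem sdr_zero {X Y : SP A} {h : MpS X Y ⦋1⦌} {p : X ⟶ Y}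
    (h0 : h.res (SimplexCategory.δ 1) = MpS.ofHom ⦋0⦌ p) (a : Aᵒᵖ) (k : SimplexCategoryᵒᵖ)
    (x : (X.obj a).obj k) : h.app a k (cst k.unop 0) x = (p.app a).app k x := by
  refine Eq.trans ?_ (congrArg (fun z : MpS X Y ⦋0⦌ => z.app a k
    (SimplexCategory.const k.unop ⦋0⦌ 0) x) h0)
  refine congrArg (fun z => h.app a k z x) ?_
  ext i : 3
  rfl

/-- The equation of a homotopy at the vertex `1`. -/
theorem sdr_one {X Y : SP A} {h : MpS X Y ⦋1⦌} {p : X ⟶ Y}
    (h1 : h.res (SimplexCategory.δ 0) = MpS.ofHom ⦋0⦌ p) (a : Aᵒᵖ) (k : SimplexCategoryᵒᵖ)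
    (x : (X.obj a).obj k) : h.app a k (cst k.unop 1) x = (p.app a).app k x := by
  refine Eq.trans ?_ (congrArg (fun z : MpS X Y ⦋0⦌ => z.app a k
    (SimplexCategory.const k.unop ⦋0⦌ 0) x) h1)
  refine congrArg (fun z => h.app a k z x) ?_
  ext i : 3
  rfl

theorem SDR.pre_hoEq {X Y : SP A} {r : X ⟶ Y} (hr : SDR r) (Z : SP A) :
    HoEq (Mp.pre r Z) := by
  obtain ⟨s, hs, h, h0, h1⟩ := hr
  refine ⟨Mp.pre s Z, htpy_of_eq ?_, htpy_mk
    (fun k (φ : MpS X Z k.unop) s' => (h.res s').comp φ) ?_ ?_ ?_⟩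
  · ext k (φ : MpS Y Z k.unop)
    refine MpS.ext ?_
    funext a l t y
    refine congrArg (φ.app a l t) ?_
    exact congrArg (fun z : Y ⟶ Y => (z.app a).app l y) hs
  · intro k l α φ s'
    refine MpS.ext ?_
    funext a m t y
    exact congrArg (fun z => MpS.app φ a m (t ≫ α.unop) (h.app a m z y))
      (Category.assoc t α.unop s').symm
  · intro k φ
    refine MpS.ext ?_
    funext a l t y
    exact congrArg (MpS.app φ a l t) (sdr_zero h0 a l y)
  · intro k φ
    refine MpS.ext ?_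
    funext a l t y
    exact congrArg (MpS.app φ a l t) (sdr_one h1 a l y)

theorem SDR.post_hoEq {X Y : SP A} {r : X ⟶ Y} (hr : SDR r) (Z : SP A) :
    HoEq (Mp.post Z r) := by
  obtain ⟨s, hs, h, h0, h1⟩ := hr
  refine ⟨Mp.post Z s, htpy_mk
    (fun k (φ : MpS Z X k.unop) s' => φ.comp (h.res s')) ?_ ?_ ?_, htpy_of_eq ?_⟩
  · intro k l α φ s'
    refine MpS.ext ?_
    funext a m t y
    exact congrArg (fun z => h.app a m z (MpS.app φ a m (t ≫ α.unop) y))
      (Category.assoc t α.unop s').symm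
  · intro k φ
    refine MpS.ext ?_
    funext a l t y
    exact sdr_zero h0 a l _
  · intro k φ
    refine MpS.ext ?_
    funext a l t y
    exact sdr_one h1 a l _
  · ext k (φ : MpS Z Y k.unop)
    refine MpS.ext ?_
    funext a l t y
    exact congrArg (fun z : Y ⟶ Y => (z.app a).app l (φ.app a l t y)) hs

theorem SDR.app_hoEq {X Y : SP A} {r : X ⟶ Y} (hr : SDR r) (a : Aᵒᵖ) :
    HoEq (r.app a) := by
  obtain ⟨s, hs, h, h0, h1⟩ := hr
  refine ⟨s.app a, htpy_mk (fun k x s' => h.app a k s' x) ?_ ?_ ?_, htpy_of_eq ?_⟩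
  · intro k l α x s'
    exact h.nat_right a α s' x
  · intro k x
    exact sdr_zero h0 a k x
  · intro k x
    exact sdr_one h1 a k x
  · exact congrArg (fun z : Y ⟶ Y => z.app a) hs

theorem SDR.whisker {B : Type} [SmallCategory B] {X Y : SP A} {r : X ⟶ Y} (hr : SDR r)
    (F : B ⥤ A) : SDR (Functor.whiskerLeft F.op r) := by
  obtain ⟨s, hs, h, h0, h1⟩ := hr
  refine ⟨Functor.whiskerLeft F.op s, ?_,
    { app := fun b k t x => h.app (F.op.obj b) k t x
      nat_left := fun f k t x => h.nat_left (F.op.map f) k t x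
      nat_right := fun b {k l} g t x => h.nat_right (F.op.obj b) g t x }, ?_, ?_⟩
  · exact congrArg (fun z : Y ⟶ Y => Functor.whiskerLeft F.op z) hs
  · refine MpS.ext ?_
    funext b k t x
    exact congrArg (fun z : MpS X X ⦋0⦌ => z.app (F.op.obj b) k t x) h0
  · refine MpS.ext ?_
    funext b k t x
    exact congrArg (fun z : MpS X X ⦋0⦌ => z.app (F.op.obj b) k t x) h1

/-! ### Mapping cylinders -/

namespace CylS

variable {X Y : SP A} {f : X ⟶ Y} {a : Aᵒᵖ} {k : SimplexCategoryᵒᵖ}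

theorem desc_cy {T : Type*} (F : (k.unop ⟶ ⦋1⦌) → (X.obj a).obj k → T)
    (G : (Y.obj a).obj k → T) (hFG : ∀ x, F (cst k.unop 0) x = G ((f.app a).app k x))
    (t : k.unop ⟶ ⦋1⦌) (x : (X.obj a).obj k) : desc F G (cy f t x) = F t x := by
  by_cases h : t = cst k.unop 0
  · subst h
    rw [cy_zero]
    exact (hFG x).symm
  · rw [cy_of_ne h]
    rfl

theorem desc_base {T : Type*} (F : (k.unop ⟶ ⦋1⦌) → (X.obj a).obj k → T)
    (G : (Y.obj a).obj k → T) (y : (Y.obj a).obj k) :
    desc F G (base y : CylS f a k) = G y := rfl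

/-- The simplicial structure. -/
noncomputable def mapk {l : SimplexCategoryᵒᵖ} (α : k ⟶ l) : CylS f a k → CylS f a l :=
  desc (fun t x => cy f (α.unop ≫ t) ((X.obj a).map α x)) fun y => base ((Y.obj a).map α y)

theorem comp_cst {k l : SimplexCategory} (g : l ⟶ k) (i : Fin 2) : g ≫ cst k i = cst l i := rfl

theorem mapk_cy {l : SimplexCategoryᵒᵖ} (α : k ⟶ l) (t : k.unop ⟶ ⦋1⦌) (x : (X.obj a).obj k) :
    mapk α (cy f t x) = cy f (α.unop ≫ t) ((X.obj a).map α x) := by
  refine desc_cy _ _ (fun x => ?_) t x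
  refine (congrArg (fun z => cy f z ((X.obj a).map α x)) (comp_cst α.unop 0)).trans ?_
  rw [cy_zero]
  exact congrArg base (hom_natk f α x)

theorem mapk_base {l : SimplexCategoryᵒᵖ} (α : k ⟶ l) (y : (Y.obj a).obj k) :
    mapk α (base y : CylS f a k) = base ((Y.obj a).map α y) := rfl

/-- The presheaf structure. -/
noncomputable def mapa {b : Aᵒᵖ} (g : a ⟶ b) : CylS f a k → CylS f b k :=
  desc (fun t x => cy f t ((X.map g).app k x)) fun y => base ((Y.map g).app k y)

theorem mapa_cy {b : Aᵒᵖ} (g : a ⟶ b) (t : k.unop ⟶ ⦋1⦌) (x : (X.obj a).obj k) :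
    mapa g (cy f t x) = cy f t ((X.map g).app k x) := by
  refine desc_cy _ _ (fun x => ?_) t x
  rw [cy_zero]
  exact congrArg base (hom_nat f g x)

theorem mapa_base {b : Aᵒᵖ} (g : a ⟶ b) (y : (Y.obj a).obj k) :
    mapa g (base y : CylS f a k) = base ((Y.map g).app k y) := rfl

/-- Pointwise minimum. -/
def minT {k : SimplexCategory} (t s : k ⟶ ⦋1⦌) : k ⟶ ⦋1⦌ :=
  SimplexCategory.Hom.mk ⟨fun i => min (t.toOrderHom i) (s.toOrderHom i), fun _ _ h =>
    min_le_min (t.toOrderHom.monotone h) (s.toOrderHom.monotone h)⟩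

theorem minT_apply {k : SimplexCategory} (t s : k ⟶ ⦋1⦌) (i : Fin (k.len + 1)) :
    (minT t s).toOrderHom i = min (t.toOrderHom i) (s.toOrderHom i) := rfl

theorem comp_minT {k l : SimplexCategory} (g : l ⟶ k) (t s : k ⟶ ⦋1⦌) :
    minT (g ≫ t) (g ≫ s) = g ≫ minT t s := rfl

theorem minT_zero_left {k : SimplexCategory} (s : k ⟶ ⦋1⦌) : minT (cst k 0) s = cst k 0 := by
  ext i : 3
  exact min_eq_left (Fin.zero_le _)

theorem minT_zero_right {k : SimplexCategory} (s : k ⟶ ⦋1⦌) : minT s (cst k 0) = cst k 0 := by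
  ext i : 3
  exact min_eq_right (Fin.zero_le _)

theorem minT_one_right {k : SimplexCategory} (s : k ⟶ ⦋1⦌) : minT s (cst k 1) = s := by
  ext i : 3
  exact min_eq_left (Fin.le_last _)

end CylS

open CylS

/-- The mapping cylinder. -/
noncomputable def Cyl {X Y : SP A} (f : X ⟶ Y) : SP A where
  obj a :=
    { obj := fun k => CylS f a k
      map := fun α => ↾ fun c => mapk α c
      map_id := fun k => by
        ext (c : CylS f a k)
        change mapk (𝟙 k) c = c
        rcases CylS.eqv c with ⟨t, x, rfl⟩ | ⟨y, rfl⟩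
        · rw [mapk_cy]
          exact congrArg₂ (cy f) (Category.id_comp t) (sset_id _ x)
        · rw [mapk_base]
          exact congrArg base (sset_id _ y)
      map_comp := fun {k l m} α β => by
        ext (c : CylS f a k)
        change mapk (α ≫ β) c = mapk β (mapk α c)
        rcases CylS.eqv c with ⟨t, x, rfl⟩ | ⟨y, rfl⟩
        · rw [mapk_cy, mapk_cy, mapk_cy]
          exact congrArg₂ (cy f) (Category.assoc _ _ _) (sset_comp _ α β x)
        · rw [mapk_base, mapk_base, mapk_base]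
          exact congrArg base (sset_comp _ α β y) }
  map {a b} g :=
    { app := fun k => ↾ fun c => mapa g c
      naturality := fun k l α => by
        ext (c : CylS f a k)
        change mapa g (mapk α c) = mapk α (mapa g c)
        rcases CylS.eqv c with ⟨t, x, rfl⟩ | ⟨y, rfl⟩
        · rw [mapk_cy, mapa_cy, mapa_cy, mapk_cy]
          exact congrArg (cy f _) (sp_nat X g α x)
        · rw [mapk_base, mapa_base, mapa_base, mapk_base]
          exact congrArg base (sp_nat Y g α y) }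
  map_id a := by
    ext k (c : CylS f a k)
    change mapa (𝟙 a) c = c
    rcases CylS.eqv c with ⟨t, x, rfl⟩ | ⟨y, rfl⟩
    · rw [mapa_cy]
      exact congrArg (cy f t) (sp_id X x)
    · rw [mapa_base]
      exact congrArg base (sp_id Y y)
  map_comp {a b b'} g h := by
    ext k (c : CylS f a k)
    change mapa (g ≫ h) c = mapa h (mapa g c)
    rcases CylS.eqv c with ⟨t, x, rfl⟩ | ⟨y, rfl⟩
    · rw [mapa_cy, mapa_cy, mapa_cy]
      exact congrArg (cy f t) (sp_comp X g h x)
    · rw [mapa_base, mapa_base, mapa_base]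
      exact congrArg base (sp_comp Y g h y)

/-- The retraction of the mapping cylinder. -/
noncomputable def Cyl.ret {X Y : SP A} (f : X ⟶ Y) : Cyl f ⟶ Y where
  app a :=
    { app := fun k => ↾ fun (c : CylS f a k) =>
        c.desc (fun _ x => (f.app a).app k x) fun y => y
      naturality := fun k l α => by
        ext (c : CylS f a k)
        change (mapk α c).desc (fun _ x => (f.app a).app l x) (fun y => y) =
          (Y.obj a).map α (c.desc (fun _ x => (f.app a).app k x) fun y => y)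
        rcases CylS.eqv c with ⟨t, x, rfl⟩ | ⟨y, rfl⟩
        · rw [mapk_cy, desc_cy _ _ (fun _ => rfl), desc_cy _ _ (fun _ => rfl)]
          exact hom_natk f α x
        · rfl }
  naturality a b g := by
    ext k (c : CylS f a k)
    change (mapa g c).desc (fun _ x => (f.app b).app k x) (fun y => y) =
      (Y.map g).app k (c.desc (fun _ x => (f.app a).app k x) fun y => y)
    rcases CylS.eqv c with ⟨t, x, rfl⟩ | ⟨y, rfl⟩
    · rw [mapa_cy, desc_cy _ _ (fun _ => rfl), desc_cy _ _ (fun _ => rfl)]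
      exact hom_nat f g x
    · rfl

theorem Cyl.ret_cy {X Y : SP A} (f : X ⟶ Y) {a : Aᵒᵖ} {k : SimplexCategoryᵒᵖ}
    (t : k.unop ⟶ ⦋1⦌) (x : (X.obj a).obj k) :
    ((Cyl.ret f).app a).app k (cy f t x) = (f.app a).app k x :=
  desc_cy _ _ (fun _ => rfl) t x

/-- The inclusion of `X` in the mapping cylinder. -/
noncomputable def Cyl.inX {X Y : SP A} (f : X ⟶ Y) : X ⟶ Cyl f where
  app a :=
    { app := fun k => ↾ fun x => cy f (cst k.unop 1) x
      naturality := fun k l α => by
        ext x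
        exact (mapk_cy (f := f) α (cst k.unop 1) x).symm }
  naturality a b g := by
    ext k x
    exact (mapa_cy (f := f) g (cst k.unop 1) x).symm

/-- The inclusion of `Y` in the mapping cylinder. -/
noncomputable def Cyl.inY {X Y : SP A} (f : X ⟶ Y) : Y ⟶ Cyl f where
  app a :=
    { app := fun k => ↾ fun y => (base y : CylS f a k)
      naturality := fun _ _ _ => rfl }
  naturality _ _ _ := rfl

/-- The deformation of the mapping cylinder. -/
noncomputable def Cyl.defo {X Y : SP A} (f : X ⟶ Y) : MpS (Cyl f) (Cyl f) ⦋1⦌ where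
  app a k s (c : CylS f a k) := c.desc (fun t x => cy f (minT t s) x) fun y => base y
  nat_left {a b} g k s (c : CylS f a k) := by
    change (mapa g c).desc (fun t x => cy f (minT t s) x) (fun y => base y) =
      mapa g (c.desc (fun t x => cy f (minT t s) x) fun y => base y)
    rcases CylS.eqv c with ⟨t, x, rfl⟩ | ⟨y, rfl⟩
    · rw [mapa_cy, desc_cy _ _ (fun _ => by rw [minT_zero_left, cy_zero]),
        desc_cy _ _ (fun _ => by rw [minT_zero_left, cy_zero]), mapa_cy]
    · rfl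
  nat_right a {k l} α s (c : CylS f a k) := by
    change (mapk α c).desc (fun t x => cy f (minT t (α.unop ≫ s)) x) (fun y => base y) =
      mapk α (c.desc (fun t x => cy f (minT t s) x) fun y => base y)
    rcases CylS.eqv c with ⟨t, x, rfl⟩ | ⟨y, rfl⟩
    · rw [mapk_cy, desc_cy _ _ (fun _ => by rw [minT_zero_left, cy_zero]),
        desc_cy _ _ (fun _ => by rw [minT_zero_left, cy_zero]), mapk_cy, comp_minT]
    · rfl

theorem Cyl.defo_cy {X Y : SP A} (f : X ⟶ Y) {a : Aᵒᵖ} {k : SimplexCategoryᵒᵖ}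
    (s t : k.unop ⟶ ⦋1⦌) (x : (X.obj a).obj k) :
    (Cyl.defo f).app a k s (cy f t x) = cy f (minT t s) x :=
  desc_cy _ _ (fun _ => by rw [minT_zero_left, cy_zero]) t x

theorem cst_ne (k : SimplexCategory) : cst k 1 ≠ cst k 0 := by
  intro h
  have h1 := congrArg (fun z : k ⟶ ⦋1⦌ => z.toOrderHom 0) h
  exact absurd h1 (by decide : ¬ (1 : Fin 2) = 0)

theorem exists_cyl {X Y : SP A} (f : X ⟶ Y) :
    ∃ (C : SP A) (i : X ⟶ C) (r : C ⟶ Y), i ≫ r = f ∧ (∀ a, Mono (i.app a)) ∧ SDR r := by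
  refine ⟨Cyl f, Cyl.inX f, Cyl.ret f, ?_, ?_, Cyl.inY f, ?_, Cyl.defo f, ?_, ?_⟩
  · ext a k x
    exact Cyl.ret_cy f _ x
  · intro a
    have : ∀ k, Mono (((Cyl.inX f).app a).app k) := by
      intro k
      rw [mono_iff_injective]
      intro x y hxy
      have h1 : cy f (cst k.unop 1) x = cy f (cst k.unop 1) y := hxy
      rw [cy_of_ne (cst_ne _), cy_of_ne (cst_ne _)] at h1
      injection h1
    exact NatTrans.mono_of_mono_app _
  · ext a k y
    rfl
  · refine MpS.ext ?_
    funext a k s (c : CylS f a k)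
    have e : s ≫ (SimplexCategory.δ 1 : ⦋0⦌ ⟶ ⦋1⦌) = cst k.unop 0 := by
      ext i : 3
      change (SimplexCategory.δ 1 : ⦋0⦌ ⟶ ⦋1⦌).toOrderHom (s.toOrderHom i) = 0
      rw [show s.toOrderHom i = 0 from Subsingleton.elim (α := Fin 1) _ _]
      rfl
    change (Cyl.defo f).app a k (s ≫ (SimplexCategory.δ 1 : ⦋0⦌ ⟶ ⦋1⦌)) c =
      base (((Cyl.ret f).app a).app k c)
    rw [e]
    rcases CylS.eqv c with ⟨t, x, rfl⟩ | ⟨y, rfl⟩
    · rw [Cyl.defo_cy, minT_zero_right, cy_zero, Cyl.ret_cy]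
    · rfl
  · refine MpS.ext ?_
    funext a k s (c : CylS f a k)
    have e : s ≫ (SimplexCategory.δ 0 : ⦋0⦌ ⟶ ⦋1⦌) = cst k.unop 1 := by
      ext i : 3
      change (SimplexCategory.δ 0 : ⦋0⦌ ⟶ ⦋1⦌).toOrderHom (s.toOrderHom i) = 1
      rw [show s.toOrderHom i = 0 from Subsingleton.elim (α := Fin 1) _ _]
      rfl
    change (Cyl.defo f).app a k (s ≫ (SimplexCategory.δ 0 : ⦋0⦌ ⟶ ⦋1⦌)) c = c
    rw [e]
    rcases CylS.eqv c with ⟨t, x, rfl⟩ | ⟨y, rfl⟩
    · rw [Cyl.defo_cy, minT_one_right]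
    · rfl

end

end Pool.Agent.Helper36.FL
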