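import Pool.Agent.Helper58.FL.Tools

/-! FL-15a: `Map(C_{≤ •}, D) = Map(C, N D)`, and `N D` is injectively fibrant. -/

open CategoryTheory MonoidalCategory Opposite

set_option autoImplicit false

namespace Pool.Agent.Helper36.FL

open _root_.FL

section

variable {n : ℕ}

/-- The forward map on simplices. -/
@[simps]
noncomputable def fwdS {C : SP (Th n)} {D : SP (Gn n)} {m : SimplexCategory}
    (ψ : MpS (filt C) D m) : MpS C (ND D) m where
  app a l s x :=
    ({ app := fun g m' t u => ψ.app g m' (t ≫ s)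
          ((C.map (Quiver.Hom.op (u : (tower n).obj g.unop ⟶ a.unop))).app m'
            ((C.obj a).map t.op x))
       nat_left := fun {g g'} f k t u => by
          refine Eq.trans ?_ (ψ.nat_left f k (t ≫ s) _)
          refine congrArg (ψ.app g' k (t ≫ s)) ?_
          exact sp_comp C (Quiver.Hom.op (u : (tower n).obj g.unop ⟶ a.unop))
            (Quiver.Hom.op ((tower n).map f.unop)) _
       nat_right := fun g {k k'} h t u => by
          refine Eq.trans ?_ (ψ.nat_right g h (t ≫ s) _)
          refine congrArg₂ (ψ.app g k') (Category.assoc _ _ _) ?_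
          refine (congrArg _ (sset_comp (C.obj a) t.op h x)).trans ?_
          exact sp_nat C (Quiver.Hom.op (u : (tower n).obj g.unop ⟶ a.unop)) h _ } :
      MpS (filt (rep a.unop)) D l.unop)
  nat_left {a b} f k s x := by
    refine MpS.ext ?_
    funext g m' t u
    refine congrArg (ψ.app g m' (t ≫ s)) ?_
    refine (congrArg _ (sp_nat C f t.op x).symm).trans ?_
    exact (sp_comp C f (Quiver.Hom.op (u : (tower n).obj g.unop ⟶ b.unop)) _).symm
  nat_right a {k l} h s x := by
    refine MpS.ext ?_
    funext g m' t u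
    refine congrArg₂ (ψ.app g m') (Category.assoc _ _ _).symm ?_
    exact congrArg _ (sset_comp (C.obj a) h t.op x).symm

/-- The backward map on simplices. -/
@[simps]
noncomputable def bwdS {C : SP (Th n)} {D : SP (Gn n)} {m : SimplexCategory}
    (Φ : MpS C (ND D) m) : MpS (filt C) D m where
  app g l s c := (Φ.app (op ((tower n).obj g.unop)) l s c : MpS (filt (rep _)) D l.unop).app g l
    (𝟙 _) (𝟙 ((tower n).obj g.unop))
  nat_left {g g'} f k s c := by
    refine (congrArg (fun z : MpS (filt (rep _)) D k.unop => z.app g' k (𝟙 _)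
      (𝟙 ((tower n).obj g'.unop))) (Φ.nat_left ((tower n).map f.unop).op k s c)).trans ?_
    refine Eq.trans ?_ ((Φ.app (op ((tower n).obj g.unop)) k s c :
      MpS (filt (rep _)) D k.unop).nat_left f k (𝟙 _) (𝟙 ((tower n).obj g.unop)))
    refine congrArg ((Φ.app (op ((tower n).obj g.unop)) k s c :
      MpS (filt (rep _)) D k.unop).app g' k (𝟙 _)) ?_
    exact (Category.id_comp ((tower n).map f.unop)).trans
      (Category.comp_id ((tower n).map f.unop)).symm
  nat_right g {k l} h s c := by
    refine (congrArg (fun z : MpS (filt (rep _)) D l.unop => z.app g l (𝟙 _)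
      (𝟙 ((tower n).obj g.unop))) (Φ.nat_right (op ((tower n).obj g.unop)) h s c)).trans ?_
    refine Eq.trans ?_ ((Φ.app (op ((tower n).obj g.unop)) k s c :
      MpS (filt (rep _)) D k.unop).nat_right g h (𝟙 _) (𝟙 ((tower n).obj g.unop)))
    exact congrArg (fun t => (Φ.app (op ((tower n).obj g.unop)) k s c :
      MpS (filt (rep _)) D k.unop).app g l t (𝟙 ((tower n).obj g.unop)))
      ((Category.id_comp h.unop).trans (Category.comp_id h.unop).symm)

theorem bwdS_fwdS {C : SP (Th n)} {D : SP (Gn n)} {m : SimplexCategory}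
    (ψ : MpS (filt C) D m) : bwdS (fwdS ψ) = ψ := by
  refine MpS.ext ?_
  funext g l s c
  refine congrArg₂ (ψ.app g l) (Category.id_comp s) ?_
  exact (sp_id C _).trans (sset_id (C.obj _) c)

theorem fwdS_bwdS {C : SP (Th n)} {D : SP (Gn n)} {m : SimplexCategory}
    (Φ : MpS C (ND D) m) : fwdS (bwdS Φ) = Φ := by
  refine MpS.ext ?_
  funext a l s x
  refine MpS.ext ?_
  funext g m' t u
  refine (congrArg (fun z : MpS (filt (rep _)) D m'.unop => z.app g m' (𝟙 _)
      (𝟙 ((tower n).obj g.unop))) (Φ.nat_left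
        (Quiver.Hom.op (u : (tower n).obj g.unop ⟶ a.unop)) m' (t ≫ s)
        ((C.obj a).map t.op x))).trans ?_
  refine (congrArg (fun z : MpS (filt (rep a.unop)) D m'.unop => z.app g m' (𝟙 _)
      (𝟙 ((tower n).obj g.unop) ≫ (u : (tower n).obj g.unop ⟶ a.unop)))
        (Φ.nat_right a t.op s x)).trans ?_
  exact congrArg₂ ((Φ.app a l s x : MpS (filt (rep a.unop)) D l.unop).app g m')
    (Category.id_comp t) (Category.id_comp (u : (tower n).obj g.unop ⟶ a.unop))

/-- `Map(C_{≤ •}, D) = Map(C, N D)`. -/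
noncomputable def filtIso (C : SP (Th n)) (D : SP (Gn n)) : Mp (filt C) D ≅ Mp C (ND D) where
  hom :=
    { app := fun k => ↾ fun (ψ : MpS (filt C) D k.unop) => fwdS ψ
      naturality := fun k l α => by
        ext (ψ : MpS (filt C) D k.unop)
        refine MpS.ext ?_
        funext a l' s x
        refine MpS.ext ?_
        funext g m' t u
        exact congrArg (fun z => ψ.app g m' z _) (Category.assoc _ _ _) }
  inv :=
    { app := fun k => ↾ fun (Φ : MpS C (ND D) k.unop) => bwdS Φ
      naturality := fun k l α => by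
        ext (ψ : MpS C (ND D) k.unop)
        rfl }
  hom_inv_id := by
    ext k (ψ : MpS (filt C) D k.unop)
    exact bwdS_fwdS ψ
  inv_hom_id := by
    ext k (Φ : MpS C (ND D) k.unop)
    exact fwdS_bwdS Φ

/-- `Map(C_{≤ •}, D) = Map(C, N D)`. -/
theorem exists_filtIso (C : SP (Th n)) (D : SP (Gn n)) :
    ∃ e : Mp (filt C) D ≅ Mp C (ND D),
      ∀ (k : SimplexCategoryᵒᵖ) (ψ : MpS (filt C) D k.unop) (a : (Th n)ᵒᵖ)
        (l : SimplexCategoryᵒᵖ) (s : l.unop ⟶ k.unop) (x : (C.obj a).obj l) (g : (Gn n)ᵒᵖ)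
        (m : SimplexCategoryᵒᵖ) (t : m.unop ⟶ l.unop)
        (u : (tower n).obj g.unop ⟶ a.unop),
        ((e.hom.app k ψ : MpS C (ND D) k.unop).app a l s x : MpS (filt (rep a.unop)) D l.unop).app
          g m t u =
        ψ.app g m (t ≫ s) ((C.map (Quiver.Hom.op u)).app m ((C.obj a).map t.op x)) :=
  ⟨filtIso C D, fun _ _ _ _ _ _ _ _ _ _ => rfl⟩

/-- Vertices of the mapping space are maps. -/
noncomputable def toHom {A : Type} [SmallCategory A] {X Y : SP A}
    (φ : MpS X Y (SimplexCategory.mk 0)) : X ⟶ Y where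
  app a :=
    { app := fun k => ↾ fun x => φ.app a k (SimplexCategory.const k.unop (SimplexCategory.mk 0) 0) x
      naturality := fun k l α => by
        ext x
        exact φ.nat_right a α (SimplexCategory.const k.unop (SimplexCategory.mk 0) 0) x }
  naturality a b f := by
    ext k x
    exact φ.nat_left f k _ x

theorem toHom_app {A : Type} [SmallCategory A] {X Y : SP A}
    (φ : MpS X Y (SimplexCategory.mk 0)) (a : Aᵒᵖ) (k : SimplexCategoryᵒᵖ)
    (s : k.unop ⟶ SimplexCategory.mk 0) (x : (X.obj a).obj k) :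
    ((toHom φ).app a).app k x = φ.app a k s x :=
  congrArg (fun z => φ.app a k z x) (SimplexCategory.eq_const_to_zero s).symm

theorem ND_injFib {D : SP (Gn n)} (hD : InjFib D) : InjFib (ND D) := by
  intro X Y i hi f
  have hi' : TrivCof (Functor.whiskerLeft (tower n).op i : filt X ⟶ filt Y) :=
    ⟨fun a => hi.1 _, fun a => hi.2 _⟩
  obtain ⟨h, hh⟩ := hD _ hi' (toHom (bwdS (MpS.ofHom (SimplexCategory.mk 0) f)))
  refine ⟨toHom (fwdS (MpS.ofHom (SimplexCategory.mk 0) h)), ?_⟩
  ext a k x
  change ((toHom (fwdS (MpS.ofHom (SimplexCategory.mk 0) h))).app a).app k ((i.app a).app k x) =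
    (f.app a).app k x
  refine (toHom_app _ a k (SimplexCategory.const k.unop (SimplexCategory.mk 0) 0) _).trans ?_
  refine MpS.ext ?_
  funext g m' t u
  have e1 : ((i.app (op ((tower n).obj g.unop))).app m'
      ((X.map (Quiver.Hom.op (u : (tower n).obj g.unop ⟶ a.unop))).app m'
        ((X.obj a).map t.op x))) =
      (Y.map (Quiver.Hom.op (u : (tower n).obj g.unop ⟶ a.unop))).app m'
        ((Y.obj a).map t.op ((i.app a).app k x)) :=
    (hom_nat i _ _).trans (congrArg _ (hom_natk i t.op x))
  have e2 := congrArg (fun z : filt X ⟶ D => (z.app g).app m'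
      ((X.map (Quiver.Hom.op (u : (tower n).obj g.unop ⟶ a.unop))).app m'
        ((X.obj a).map t.op x))) hh
  refine (congrArg ((h.app g).app m') e1.symm).trans (e2.trans ?_)
  refine (toHom_app _ g m' (t ≫ SimplexCategory.const k.unop (SimplexCategory.mk 0) 0) _).trans ?_
  exact congrArg (fun z : MpS X (ND D) (SimplexCategory.mk 0) =>
    ((z.app a k (SimplexCategory.const k.unop (SimplexCategory.mk 0) 0) x :
      MpS (filt (rep a.unop)) D k.unop).app g m' t u))
    (fwdS_bwdS (MpS.ofHom (SimplexCategory.mk 0) f))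

end

end Pool.Agent.Helper36.FL
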